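import Pool.Agent.Helper72.AI.Stmts

set_option autoImplicit false

namespace Pool.Agent.Helper68.AI

open AffInc MeasureTheory

lemma mapT_S0 (X : Fin 3 → ℝ × ℝ) (i : Fin 3) : T X (S0 i) = X i := by
  rw [T_def]
  fin_cases i <;> simp [S0]

lemma tri_subset {K : Set (ℝ × ℝ)} (hK : Convex ℝ K) (h : ∀ i, S0 i ∈ K) : Tri ⊆ K := by
  rw [Tri_eq_hull]
  exact convexHull_min (by rintro _ ⟨i, rfl⟩; exact h i) hK

lemma interior_Tri : (interior Tri).Nonempty := by
  refine ⟨(1 / 4, 1 / 4), ?_⟩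
  rw [mem_interior]
  refine ⟨{p : ℝ × ℝ | 0 < p.1 ∧ 0 < p.2 ∧ p.1 + p.2 < 1}, ?_, ?_, ?_⟩
  · rw [Tri_eq]
    rintro p ⟨h1, h2, h3⟩
    exact ⟨h1.le, h2.le, h3.le⟩
  · apply IsOpen.inter (isOpen_lt continuous_const continuous_fst)
    apply IsOpen.inter (isOpen_lt continuous_const continuous_snd)
    exact isOpen_lt (continuous_fst.add continuous_snd) continuous_const
  · norm_num

lemma core_main (h1 : S_blaschke) (h3 : S_fgeom) (h4 : S_harea) (h5 : S_poly) (h6 : S_small)
    (h7 : S_large) (F G : Set (ℝ × ℝ)) (hF : Fig F) (hG : Fig G) (hFm : MaxTri F S0)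
    (hGm : MaxTri G S0) :
    ∃ X : Fin 3 → ℝ × ℝ, det3 X ≠ 0 ∧ Set.MapsTo (T X) F G ∧ kap * area G ≤ |det3 X| * area F ∧
      (kap * area G < |det3 X| * area F ∨
        (F = Tri ∧ ∃ Y : Fin 3 → ℝ × ℝ, det3 Y ≠ 0 ∧ G = T Y '' Disc)) := by
  have hkap : 0 < kap := by
    unfold kap
    have := Real.pi_pos
    positivity
  obtain ⟨t, ht0, ht1, hFH, htp⟩ := h3 F hF hFm
  have hbG := h1 G hG S0 hGm
  rw [det3_S0] at hbG
  rcases (Finset.sum_nonneg fun i _ => ht0 i).eq_or_lt with hs | hs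
  · -- `s = 0`
    have ht : ∀ i, t i = 0 := fun i =>
      (Finset.sum_eq_zero_iff_of_nonneg fun j _ => ht0 j).1 hs.symm i (Finset.mem_univ i)
    have hFT : F = Tri := by
      apply Set.Subset.antisymm
      · intro p hp i
        have := (hFH hp i).1
        rw [ht i, neg_zero] at this
        exact this
      · exact tri_subset hF.cvx hFm.1
    have hid : ∀ p, T S0 p = p := T_S0
    have hle : kap * area G ≤ |det3 S0| * area F := by
      rw [hFT, area_Tri, det3_S0, abs_one]
      linarith [hbG.1]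
    refine ⟨S0, by rw [det3_S0]; norm_num, ?_, hle, ?_⟩
    · intro p hp
      rw [hid]
      rw [hFT] at hp
      exact tri_subset hG.cvx hGm.1 hp
    · rcases hbG.1.lt_or_eq with h | h
      · left
        rw [hFT, area_Tri, det3_S0, abs_one]
        linarith
      · right
        exact ⟨hFT, hbG.2 h⟩
  · set s := ∑ i, t i with hsdef
    choose P hPF hP using htp
    set V : Set (ℝ × ℝ) := Set.range S0 ∪ Set.range P with hV
    have hVf : V.Finite := (Set.finite_range _).union (Set.finite_range _)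
    set K := convexHull ℝ V with hK
    have hVF : V ⊆ F := by
      rintro p (⟨i, rfl⟩ | ⟨i, rfl⟩)
      · exact hFm.1 i
      · exact hPF i
    have hKF : K ⊆ F := convexHull_min hVF hF.cvx
    have hKc : IsCompact K := hVf.isCompact_convexHull ℝ
    have hKcv : Convex ℝ K := convex_convexHull ℝ V
    have hKS : ∀ i, S0 i ∈ K := fun i => subset_convexHull ℝ V (Or.inl ⟨i, rfl⟩)
    have hKP : ∀ i, P i ∈ K := fun i => subset_convexHull ℝ V (Or.inr ⟨i, rfl⟩)
    have hKfig : Fig K := ⟨hKc, hKcv, interior_Tri.mono (interior_mono (tri_subset hKcv hKS))⟩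
    have hKm : MaxTri K S0 := ⟨hKS, fun Y hY => hFm.2 Y fun i => hKF (hY i)⟩
    have hKarea : 1 + s ≤ 2 * area K :=
      h4 K t hKc hKcv ht0 hKS (hKF.trans hFH) fun i => ⟨P i, hKP i, hP i⟩
    have hFarea : 1 + s ≤ 2 * area F :=
      h4 F t hF.cpt hF.cvx ht0 hFm.1 hFH fun i => ⟨P i, hPF i, hP i⟩
    have hbK := h1 K hKfig S0 hKm
    rw [det3_S0] at hbK
    have hbK' : 2 * kap * area K < 1 := by
      rcases hbK.1.lt_or_eq with h | h
      · exact h
      · exfalso
        obtain ⟨Y, hY, hYK⟩ := hbK.2 h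
        exact h5 V Y hVf hY hYK.symm
    have hsk : (1 + s) * kap < 1 := by nlinarith
    obtain ⟨X, hX1, hX2⟩ : ∃ X : Fin 3 → ℝ × ℝ, Set.MapsTo (T X) (H t) G ∧
        2 * kap * area G < (1 + s) * |det3 X| := by
      rcases le_total s 0.654 with h | h
      · exact h6 G t hG hGm ht0 hs h
      · exact h7 G t hG ht0 ht1 h hsk
    have hGpos := hG.area_pos
    have hXne : det3 X ≠ 0 := by
      intro h
      rw [h, abs_zero, mul_zero] at hX2
      have : 0 < 2 * kap * area G := by positivity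
      linarith
    have hlt : kap * area G < |det3 X| * area F := by
      have h8 : 0 ≤ |det3 X| := abs_nonneg _
      have h9 : (1 + s) * |det3 X| ≤ 2 * area F * |det3 X| :=
        mul_le_mul_of_nonneg_right hFarea h8
      nlinarith
    exact ⟨X, hXne, fun p hp => hX1 (hFH hp), hlt.le, Or.inl hlt⟩

lemma maxTri_image {F : Set (ℝ × ℝ)} {X : Fin 3 → ℝ × ℝ} (hX : MaxTri F X) (hpos : 0 < det3 X) :
    0 < det3 (invT X) ∧ MaxTri (T (invT X) '' F) S0 := by
  have hne : det3 X ≠ 0 := hpos.ne'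
  have h1 := det3_invT X hne
  have hpos' : 0 < det3 (invT X) := by
    by_contra h
    push Not at h
    have : det3 X * det3 (invT X) ≤ 0 := mul_nonpos_of_nonneg_of_nonpos hpos.le h
    linarith
  refine ⟨hpos', ?_, ?_⟩
  · intro i
    refine ⟨X i, hX.1 i, ?_⟩
    rw [← mapT_S0 X i, invT_T X hne]
  · intro Y hY
    choose y hyF hy using hY
    have h2 : Y = fun i => T (invT X) (y i) := funext fun i => (hy i).symm
    rw [h2, det3_T, det3_S0, ← h1, mul_comm (det3 X)]
    exact mul_le_mul_of_nonneg_left (hX.2 y hyF) hpos'.le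

theorem pf_S_main (h1 : S_blaschke) (h2 : S_maxtri) (h3 : S_fgeom) (h4 : S_harea) (h5 : S_poly)
    (h6 : S_small) (h7 : S_large) : S_main := by
  intro F G hF hG
  obtain ⟨XF, hXF, hXFpos⟩ := h2 F hF
  obtain ⟨XG, hXG, hXGpos⟩ := h2 G hG
  obtain ⟨hiF, hmF⟩ := maxTri_image hXF hXFpos
  obtain ⟨hiG, hmG⟩ := maxTri_image hXG hXGpos
  obtain ⟨X', hX'ne, hmaps, hle, hor⟩ := core_main h1 h3 h4 h5 h6 h7 _ _
    (hF.image (invT XF) hiF.ne') (hG.image (invT XG) hiG.ne') hmF hmG
  rw [area_T, area_T] at hle hor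
  set X : Fin 3 → ℝ × ℝ := fun i => T XG (T X' (invT XF i)) with hX
  have hTX : ∀ p, T X p = T XG (T X' (T (invT XF) p)) := by
    intro p
    rw [T_comp X' (invT XF), T_comp XG]
  have hdetX : det3 X = det3 XG * (det3 X' * det3 (invT XF)) := by
    rw [hX, det3_T XG (fun i => T X' (invT XF i)), det3_T]
  have hXne : det3 X ≠ 0 := by
    rw [hdetX]
    exact mul_ne_zero hXGpos.ne' (mul_ne_zero hX'ne hiF.ne')
  have hsub : T X '' F ⊆ G := by
    rintro _ ⟨p, hp, rfl⟩
    obtain ⟨g, hg, hgp⟩ := hmaps ⟨p, hp, rfl⟩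
    rw [hTX, ← hgp, T_invT XG hXGpos.ne']
    exact hg
  have hinvG := det3_invT XG hXGpos.ne'
  have hG' : ∀ a : ℝ, |det3 XG| * (kap * (|det3 (invT XG)| * a)) = kap * a := by
    intro a
    have : |det3 XG| * |det3 (invT XG)| = 1 := by rw [← abs_mul, hinvG, abs_one]
    calc |det3 XG| * (kap * (|det3 (invT XG)| * a))
        = (|det3 XG| * |det3 (invT XG)|) * (kap * a) := by ring
      _ = kap * a := by rw [this, one_mul]
  have hareaX : area (T X '' F) = |det3 XG| * (|det3 X'| * (|det3 (invT XF)| * area F)) := by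
    rw [area_T, hdetX, abs_mul, abs_mul]
    ring
  have hGabs : 0 < |det3 XG| := abs_pos.2 hXGpos.ne'
  refine ⟨⟨X, hXne, hsub, ?_⟩, ?_⟩
  · rw [hareaX, ← hG' (area G)]
    exact mul_le_mul_of_nonneg_left hle hGabs.le
  · intro hyp
    rcases hor with h | ⟨hFT, Y, hY, hGY⟩
    · exfalso
      have h8 := hyp X hsub
      rw [hareaX, ← hG' (area G)] at h8
      have h9 := mul_lt_mul_of_pos_left h hGabs
      linarith
    · constructor
      · refine ⟨XF, hXFpos.ne', ?_⟩
        rw [← hFT, Set.image_image]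
        have : (fun p => T XF (T (invT XF) p)) = id := funext fun p => T_invT XF hXFpos.ne' p
        rw [this, Set.image_id]
      · refine ⟨fun i => T XG (Y i), ?_, ?_⟩
        · rw [det3_T]
          exact mul_ne_zero hXGpos.ne' hY
        · have h8 : T (fun i => T XG (Y i)) = fun p => T XG (T Y p) :=
            funext fun p => (T_comp XG Y p).symm
          rw [h8, ← Set.image_image (T XG) (T Y), ← hGY, Set.image_image]
          have : (fun p => T XG (T (invT XG) p)) = id := funext fun p => T_invT XG hXGpos.ne' p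
          rw [this, Set.image_id]

end Pool.Agent.Helper68.AI
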