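import Pool.Agent.Helper72.AI.Stmts

set_option autoImplicit false

namespace Pool.Agent.Helper68.AI

open AffInc MeasureTheory

lemma sum3 {M : Type*} [AddCommMonoid M] (f : Fin 3 → M) {i j k : Fin 3} (hij : i ≠ j)
    (hik : i ≠ k) (hjk : j ≠ k) : ∑ l, f l = f i + f j + f k := by
  have h : (Finset.univ : Finset (Fin 3)) = {i, j, k} := by
    symm
    apply Finset.eq_univ_of_card
    rw [Finset.card_insert_of_notMem (by simp [hij, hik]),
      Finset.card_insert_of_notMem (by simp [hjk]), Finset.card_singleton, Fintype.card_fin]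
  rw [h, Finset.sum_insert (by simp [hij, hik]), Finset.sum_insert (by simp [hjk]),
    Finset.sum_singleton, add_assoc]

lemma exists_third {i j : Fin 3} (hij : i ≠ j) : ∃ k : Fin 3, i ≠ k ∧ j ≠ k := by
  revert i j; decide

lemma Bpt_eq {i j k : Fin 3} (hij : i ≠ j) (hik : i ≠ k) (hjk : j ≠ k) (u : ℝ) :
    Bpt k u = ((1 + u) / 2) • S0 i + ((1 + u) / 2) • S0 j + (-u) • S0 k := by
  unfold Bpt
  rw [sum3 _ hij hik hjk]
  simp [hik, hjk]

lemma kap_pos : 0 < kap := by
  unfold kap
  have := Real.pi_pos
  positivity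

lemma kap_lt : kap < 1 / 2 := by
  unfold kap
  have h1 := Real.pi_gt_three
  have h2 : Real.sqrt 3 < 2 := by
    rw [Real.sqrt_lt' (by norm_num)]
    norm_num
  rw [div_lt_iff₀ (by positivity)]
  nlinarith

lemma det3_eq_det (X : Fin 3 → ℝ × ℝ) :
    det3 X = (Matrix.of fun i => ![1, (X i).1, (X i).2]).det := by
  rw [Matrix.det_fin_three]
  simp [det3]
  ring

lemma abs_det3_perm (X : Fin 3 → ℝ × ℝ) (σ : Equiv.Perm (Fin 3)) :
    |det3 (fun i => X (σ i))| = |det3 X| := by
  rw [det3_eq_det, det3_eq_det X]
  have h : (Matrix.of fun i => ![1, (X (σ i)).1, (X (σ i)).2]) =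
      (Matrix.of fun i => ![1, (X i).1, (X i).2]).submatrix σ id := rfl
  rw [h, Matrix.det_permute, abs_mul]
  rcases Int.units_eq_one_or (Equiv.Perm.sign σ) with h' | h' <;> simp [h']

theorem pf_S_small (h1 : S_caps) (h2 : S_star) (h3 : S_hex) (h4 : S_core) (h5 : S_blaschke) :
    S_small := by
  intro G t hG hmax ht hs hs'
  set s := ∑ i, t i with hsdef
  set K0 := 2 * kap * area G with hK0
  have hkap := kap_pos
  have hkap2 := kap_lt
  have hareapos := hG.area_pos
  have hK0pos : 0 < K0 := by positivity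
  have hK01 : K0 ≤ 1 := by
    have := (h5 G hG S0 hmax).1
    rwa [det3_S0] at this
  obtain ⟨u, hu0, hu1, hB, harea⟩ := h1 G hG hmax
  have hS0G : ∀ i, S0 i ∈ G := hmax.1
  -- step 1
  obtain ⟨τ, hτ0, hτ1, hτq, hτK⟩ : ∃ τ : ℝ, 0 ≤ τ ∧ τ < 1 ∧
      kap * (1 + ∑ i, (τ * u i) * (2 - τ * u i)) ≤ 1 ∧
      K0 < kap * (1 + ∑ i, (τ * u i) * (2 - τ * u i)) * (1 + s / 1000) := by
    by_cases hc : K0 < kap * (1 + s / 1000)
    · refine ⟨0, le_rfl, one_pos, ?_, ?_⟩
      · simp
        linarith
      · simpa using hc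
    · push Not at hc
      set v := K0 / (1 + s / 2000) with hv
      have hvK : v < K0 := by
        rw [hv, div_lt_iff₀ (by positivity)]
        nlinarith
      have hKv : K0 = v * (1 + s / 2000) := by
        rw [hv]
        field_simp
      have hvpos : 0 < v := by positivity
      have hkv : kap ≤ v := by
        rw [hv, le_div_iff₀ (by positivity)]
        nlinarith
      set q : ℝ → ℝ := fun τ => kap * (1 + ∑ i, (τ * u i) * (2 - τ * u i)) with hq
      have hqc : Continuous q := by
        rw [hq]
        fun_prop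
      have hq0 : q 0 = kap := by simp [hq]
      have hq1 : K0 ≤ q 1 := by
        simp only [hq, one_mul]
        rw [hK0]
        nlinarith
      have hivt := intermediate_value_Icc (zero_le_one' ℝ) hqc.continuousOn
      obtain ⟨τ, hτ, hτv⟩ := hivt (show v ∈ Set.Icc (q 0) (q 1) from
        ⟨by rw [hq0]; exact hkv, by linarith⟩)
      refine ⟨τ, hτ.1, lt_of_le_of_ne hτ.2 ?_, ?_, ?_⟩
      · rintro rfl
        linarith
      · have : q τ ≤ 1 := by rw [hτv]; linarith
        exact this
      · have : K0 < q τ * (1 + s / 1000) := by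
          rw [hτv, hKv]
          nlinarith
        exact this
  set u' : Fin 3 → ℝ := fun i => τ * u i with hu'
  have hu'0 : ∀ i, 0 ≤ u' i := fun i => mul_nonneg hτ0 (hu0 i)
  have hu'1 : ∀ i, u' i < 1 := by
    intro i
    have h6 : τ * u i ≤ τ * 1 := mul_le_mul_of_nonneg_left (hu1 i) hτ0
    show τ * u i < 1
    linarith
  have hB' : ∀ i, Bpt i (u' i) ∈ G := by
    intro k
    obtain ⟨i, j, hij, hik, hjk⟩ : ∃ i j : Fin 3, i ≠ j ∧ i ≠ k ∧ j ≠ k := by
      revert k; decide
    have h0 : Bpt k 0 ∈ G := by
      rw [Bpt_eq hij hik hjk]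
      have := hG.cvx (hS0G i) (hS0G j) (a := 1 / 2) (b := 1 / 2) (by norm_num) (by norm_num)
        (by norm_num)
      simpa using this
    have h7 : Bpt k (u' k) = (1 - τ) • Bpt k 0 + τ • Bpt k (u k) := by
      rw [Bpt_eq hij hik hjk, Bpt_eq hij hik hjk, Bpt_eq hij hik hjk]
      ext
      · simp [hu']; ring
      · simp [hu']; ring
    rw [h7]
    exact hG.cvx h0 (hB k) (by linarith) hτ0 (by ring)
  set n : Fin 3 → ℝ := fun i => 2 * u' i / (1 - u' i) with hn
  have hn0 : ∀ i, 0 ≤ n i := by
    intro i
    have := hu'1 i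
    have := hu'0 i
    have h6 : 0 < 1 - u' i := by linarith
    show 0 ≤ 2 * u' i / (1 - u' i)
    positivity
  have hQ : 1 + ∑ i, (τ * u i) * (2 - τ * u i) = 4 - ∑ i, 4 / (2 + n i) ^ 2 := by
    have h6 : ∀ i, (τ * u i) * (2 - τ * u i) = 1 - 4 / (2 + n i) ^ 2 := by
      intro i
      have h7 : 0 < 1 - u' i := by linarith [hu'1 i]
      have h8 : 2 + n i = 2 / (1 - u' i) := by
        simp only [hn]
        field_simp
        ring
      rw [h8, div_pow]
      have h9 : τ * u i = u' i := rfl
      rw [h9]
      field_simp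
      ring
    rw [Finset.sum_congr rfl fun i _ => h6 i, Finset.sum_sub_distrib]
    simp
    ring
  rw [hQ] at hτq hτK
  set K := kap * (4 - ∑ i, 4 / (2 + n i) ^ 2) with hK
  -- the key: a placement of the star
  have key : ∃ (σ : Equiv.Perm (Fin 3)) (Z : Fin 3 → ℝ × ℝ) (r : Fin 3 → ℝ),
      (∀ i, 0 ≤ r i ∧ r i ≤ (s - t (σ i)) / (1 + s)) ∧ (∀ i j, i ≠ j → r i + r j ≤ 1) ∧
      (∀ i j, i ≠ j → (1 - r i) • Z i + r i • Z j ∈ G) ∧
      K * (1 + s) * (1 + s / 1000) ≤ |det3 Z| := by
    rcases (Finset.sum_nonneg fun i _ => hn0 i).eq_or_lt with hL | hL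
    · refine ⟨1, S0, fun _ => 0, ?_, ?_, ?_, ?_⟩
      · intro i
        refine ⟨le_rfl, ?_⟩
        have h6 : t i ≤ s := Finset.single_le_sum (fun j _ => ht j) (Finset.mem_univ i)
        simp only [Equiv.Perm.coe_one, id_eq]
        apply div_nonneg <;> linarith
      · intro i j _
        norm_num
      · intro i j _
        simpa using hS0G i
      · have h6 : ∀ i, n i = 0 := by
          intro i
          exact (Finset.sum_eq_zero_iff_of_nonneg fun j _ => hn0 j).1 hL.symm i (Finset.mem_univ i)
        have h7 : K = kap := by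
          rw [hK]
          simp only [h6]
          simp
          norm_num
        rw [h7, det3_S0, abs_one]
        have h8 : kap * (1 + s) * (1 + s / 1000) ≤ (1 / 2) * (1 + 0.654) * (1 + 0.654 / 1000) := by
          gcongr
        refine h8.trans ?_
        norm_num
    · obtain ⟨σ, r, φ, hr, hrr, hφ, hA, hBq, hV⟩ := h4 n t s K hn0 ht hL rfl hs hs' hK hτq
      set L := ∑ k, n k with hLdef
      set c : ℝ × ℝ := L⁻¹ • ∑ i, n i • S0 i with hc
      have hLne : L ≠ 0 := hL.ne'
      set Z : Fin 3 → ℝ × ℝ := fun i => c + φ i • (S0 i - c) with hZ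
      refine ⟨σ, Z, r, hr, hrr, ?_, ?_⟩
      · intro i j hij
        obtain ⟨k, hik, hjk⟩ := exists_third hij
        have hsum : n i + n j + n k = L := by rw [hLdef, sum3 n hij hik hjk]
        have hBk : ((1 + u' k) / 2) • S0 i + ((1 + u' k) / 2) • S0 j + (-u' k) • S0 k ∈ G := by
          rw [← Bpt_eq hij hik hjk]
          exact hB' k
        have hcc : (n i + n j + n k) • c = n i • S0 i + n j • S0 j + n k • S0 k := by
          rw [hsum, hc, smul_smul, mul_inv_cancel₀ hLne, one_smul, sum3 _ hij hik hjk]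
        have hri := (hr i).1
        have hrj := (hr j).1
        have hrij := hrr i j hij
        have h6 := h2 G hG.cvx (S0 i) (S0 j) (S0 k) (hS0G i) (hS0G j) (hS0G k) (u' k) (n i) (n j)
          (n k) (hu'0 k) (hu'1 k) (hn0 i) (hn0 j) rfl hBk (by rw [hsum]; exact hL) c hcc
          ((1 - r i) * φ i) (r i * φ j) (mul_nonneg (by linarith) (hφ i))
          (mul_nonneg hri (hφ j)) (by
            have h7 := hA i j hij
            have h8 : 1 + n j + n k = 1 + L - n i := by rw [← hsum]; ring
            rw [h8]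
            exact h7) (by
            have h8 : 1 + n i + n k = 1 + L - n j := by rw [← hsum]; ring
            rw [h8]
            have h9 := hA j i hij.symm
            have h10 := hBq i j hij
            rcases eq_or_lt_of_le (show r j ≤ 1 by linarith) with h11 | h11
            · have h12 : r i = 0 := by linarith
              rw [h12]
              simpa using h10
            · have h13 : 0 < 1 - r j := by linarith
              set θ := r i / (1 - r j) with hθ
              have hθ0 : 0 ≤ θ := by positivity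
              have hθ1 : θ ≤ 1 := by
                rw [hθ, div_le_one h13]
                linarith
              have hθr : r i = θ * (1 - r j) := by
                rw [hθ]
                field_simp
              have h14 : (1 + L - n j) * (r i * φ j) + (1 - n j) * ((1 - r i) * φ i) =
                  θ * ((1 + L - n j) * ((1 - r j) * φ j) + (1 - n j) * (r j * φ i)) +
                  (1 - θ) * ((1 - n j) * φ i) := by
                rw [hθr]
                ring
              rw [h14]
              calc _ ≤ θ * (1 + L - n j) + (1 - θ) * (1 + L - n j) := by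
                    gcongr
                _ = 1 + L - n j := by ring)
        have h7 : (1 - r i) • Z i + r i • Z j =
            c + ((1 - r i) * φ i) • (S0 i - c) + (r i * φ j) • (S0 j - c) := by
          simp only [hZ]
          ext
          · simp; ring
          · simp; ring
        rw [h7]
        exact h6
      · have hc1 : c.1 = n 1 / L := by
          simp [hc, Fin.sum_univ_three, S0]
          field_simp
        have hc2 : c.2 = n 2 / L := by
          simp [hc, Fin.sum_univ_three, S0]
          field_simp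
        have hL3 : L = n 0 + n 1 + n 2 := by rw [hLdef, Fin.sum_univ_three]
        have hdet : det3 Z * L = n 0 * (φ 1 * φ 2) + n 1 * (φ 0 * φ 2) + n 2 * (φ 0 * φ 1) := by
          simp only [det3, hZ]
          simp only [Prod.fst_add, Prod.snd_add, Prod.smul_fst, Prod.smul_snd, Prod.fst_sub,
            Prod.snd_sub, smul_eq_mul, hc1, hc2, S0, Matrix.cons_val_zero, Matrix.cons_val_one,
            Matrix.cons_val]
          have h0 : n 0 = L - n 1 - n 2 := by rw [hL3]; ring
          rw [h0]
          field_simp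
          ring
        have h6 : K * (1 + s) * (1 + s / 1000) * L ≤ det3 Z * L := by
          rw [hdet]
          exact hV
        exact (le_of_mul_le_mul_right h6 hL).trans (le_abs_self _)
  obtain ⟨σ, Z, r, hr, hrr, hY, hdet⟩ := key
  have hs1 : 0 < 1 + s := by linarith
  set W : ℝ × ℝ := ∑ k, t (σ k) • Z k with hW
  set X : Fin 3 → ℝ × ℝ := fun i => (1 + s)⁻¹ • (Z (σ.symm i) + W) with hX
  refine ⟨X, ?_, ?_⟩
  · intro p hp
    have h6 := h3 G hG.cvx Z r (fun i => (hr i).1) hrr hY
      (fun k => (lam p (σ k) + t (σ k)) / (1 + s))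
      (fun k => div_nonneg (by linarith [(hp (σ k)).1]) hs1.le) (by
        rw [← Finset.sum_div, div_eq_one_iff_eq hs1.ne', Finset.sum_add_distrib,
          Equiv.sum_comp σ (lam p), Equiv.sum_comp σ t, lam_sum]) (by
        intro i
        have h7 := (hr i).2
        have h8 := (hp (σ i)).2
        have h9 : (lam p (σ i) + t (σ i)) / (1 + s) ≤ (1 + t (σ i)) / (1 + s) := by gcongr
        have h10 : (1 + t (σ i)) / (1 + s) = 1 - (s - t (σ i)) / (1 + s) := by
          field_simp
          ring
        linarith)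
    have h7 : T X p = ∑ k, ((lam p (σ k) + t (σ k)) / (1 + s)) • Z k := by
      have h8 : T X p = ∑ i, lam p i • X i := rfl
      rw [h8]
      have h9 : ∀ k, ((lam p (σ k) + t (σ k)) / (1 + s)) • Z k =
          (1 + s)⁻¹ • (lam p (σ k) • Z (σ.symm (σ k))) + (1 + s)⁻¹ • (t (σ k) • Z k) := by
        intro k
        rw [Equiv.symm_apply_apply, smul_smul, smul_smul, ← add_smul]
        congr 1
        field_simp
      rw [Finset.sum_congr rfl fun k _ => h9 k, Finset.sum_add_distrib, ← Finset.smul_sum,
        ← Finset.smul_sum, Equiv.sum_comp σ (fun i => lam p i • Z (σ.symm i)), ← hW]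
      simp only [hX]
      have h10 : ∀ i, lam p i • ((1 + s)⁻¹ • (Z (σ.symm i) + W)) =
          (1 + s)⁻¹ • (lam p i • Z (σ.symm i)) + lam p i • ((1 + s)⁻¹ • W) := by
        intro i
        rw [smul_comm, smul_add, smul_add, smul_comm (lam p i) ((1 + s)⁻¹) W]
      rw [Finset.sum_congr rfl fun i _ => h10 i, Finset.sum_add_distrib, ← Finset.smul_sum,
        ← Finset.sum_smul, lam_sum, one_smul]
    rw [h7]
    exact h6
  · have h6 : det3 X = det3 (fun i => Z (σ.symm i)) / (1 + s) ^ 2 := by
      simp only [det3, hX, Prod.smul_fst, Prod.smul_snd, Prod.fst_add, Prod.snd_add, smul_eq_mul]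
      field_simp
      ring
    rw [h6, abs_div, abs_det3_perm Z σ.symm, abs_of_pos (by positivity : (0 : ℝ) < (1 + s) ^ 2)]
    have h7 : (1 + s) * (|det3 Z| / (1 + s) ^ 2) = |det3 Z| / (1 + s) := by
      field_simp
    rw [h7, lt_div_iff₀ hs1]
    calc K0 * (1 + s) < K * (1 + s / 1000) * (1 + s) := by gcongr
      _ = K * (1 + s) * (1 + s / 1000) := by ring
      _ ≤ |det3 Z| := hdet

end Pool.Agent.Helper68.AI
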